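import Pool.Agent.H91.EL.Targets

/-!
# Board elm_modules, row BOX: separated points in a box
-/

set_option autoImplicit false

namespace Pool.Agent.H45.EL

open Pool.Agent.H83.G Pool.Agent.H91.EL

theorem pf_BOX : T_BOX := by
  refine ⟨4000 ^ 4, by norm_num, ?_⟩
  intro f t L Y hf hY hL hbox
  let F : Z 2 → Fin 4 → ℤ := fun z i => ⌊(f i z - t i) * 1001⌋
  let B : Fin 4 → Finset ℤ := fun i => Finset.Icc (-⌈1001 * L i⌉ - 1) (⌈1001 * L i⌉ + 1)
  have hB : ∀ i, ((B i).card : ℝ) ≤ 4000 * L i := by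
    intro i
    have h1 : (B i).card = (⌈1001 * L i⌉ + 1 + 1 - (-⌈1001 * L i⌉ - 1)).toNat := Int.card_Icc _ _
    have h0 : (0 : ℝ) < 1001 * L i := by linarith [hL i]
    have h2 : 0 < ⌈1001 * L i⌉ := Int.ceil_pos.2 h0
    have h3 : ((B i).card : ℤ) = 2 * ⌈1001 * L i⌉ + 3 := by
      rw [h1, Int.toNat_of_nonneg (by omega)]
      ring
    have h4 : ((B i).card : ℝ) = 2 * (⌈1001 * L i⌉ : ℝ) + 3 := by exact_mod_cast h3
    have h5 := Int.ceil_lt_add_one (1001 * L i)
    have h6 := hL i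
    rw [h4]
    linarith
  have hmaps : ∀ z ∈ Y, F z ∈ Fintype.piFinset B := by
    intro z hz
    rw [Fintype.mem_piFinset]
    intro i
    have h1 := abs_le.1 (hbox z hz i)
    have h2 := Int.le_ceil (1001 * L i)
    have h3 := Int.floor_le ((f i z - t i) * 1001)
    have h4 := Int.lt_floor_add_one ((f i z - t i) * 1001)
    refine Finset.mem_Icc.2 ⟨?_, ?_⟩
    · have h5 : ((-⌈1001 * L i⌉ - 1 : ℤ) : ℝ) < ((⌊(f i z - t i) * 1001⌋ + 1 : ℤ) : ℝ) := by
        push_cast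
        have := h1.1
        linarith
      have h6 := Int.cast_lt.1 h5
      show -⌈1001 * L i⌉ - 1 ≤ ⌊(f i z - t i) * 1001⌋
      omega
    · have h5 : ((⌊(f i z - t i) * 1001⌋ : ℤ) : ℝ) < ((⌈1001 * L i⌉ + 1 : ℤ) : ℝ) := by
        push_cast
        have := h1.2
        linarith
      have h6 := Int.cast_lt.1 h5
      show ⌊(f i z - t i) * 1001⌋ ≤ ⌈1001 * L i⌉ + 1
      omega
  have hinj : ∀ z ∈ Y, ∀ z' ∈ Y, F z = F z' → z = z' := by
    intro z hz z' hz' h
    by_contra hne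
    have h1 : 1 ≤ ‖z - z'‖ := hY z hz z' hz' hne
    obtain ⟨i, hi⟩ := hf (z - z')
    have h2 : ⌊(f i z - t i) * 1001⌋ = ⌊(f i z' - t i) * 1001⌋ := congrFun h i
    have h3 := Int.abs_sub_lt_one_of_floor_eq_floor h2
    have h4 : (f i z - t i) * 1001 - (f i z' - t i) * 1001 = 1001 * f i (z - z') := by
      rw [map_sub]
      ring
    rw [h4, abs_mul, abs_of_pos (by norm_num : (0 : ℝ) < 1001)] at h3
    linarith [abs_nonneg (f i (z - z'))]
  have hcard : Y.card ≤ (Fintype.piFinset B).card :=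
    Finset.card_le_card_of_injOn F (fun z hz => hmaps z hz) (fun z hz z' hz' h =>
      hinj z hz z' hz' h)
  rw [Fintype.card_piFinset] at hcard
  have h1 : (Y.card : ℝ) ≤ ∏ i, ((B i).card : ℝ) := by exact_mod_cast hcard
  refine h1.trans ?_
  have h2 : ∏ i, ((B i).card : ℝ) ≤ ∏ i, (4000 * L i) :=
    Finset.prod_le_prod (fun i _ => Nat.cast_nonneg _) (fun i _ => hB i)
  refine h2.trans (le_of_eq ?_)
  rw [Finset.prod_mul_distrib, Finset.prod_const, Finset.card_univ, Fintype.card_fin]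

end Pool.Agent.H45.EL
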